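import Mathlib
import Pool.Agent.Lib.MP_d57abb_nt.Plus

/-!
# Parity of the number of prime factors of `k² + 3 k + 1`

Every value which a completely multiplicative function with values `1, -1` (for instance the
Liouville function, or `n ↦ (-1) ^ (number of prime factors of n in a given set of primes)`)
takes on the sequence `k² + 3 k + 1` is taken for at least `N ^ (1 - ε)` integers `k ≤ N`.

Proof.  `k² + 3 k + 1 = N(v) N(w)` for every basis `v, w` of `ℤ[α]`, `α = (3 + √5) / 2`, with
`v w' = k + 3 - α`.  Between two totally positive elements of opposite signs there is such a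
basis of opposite signs (discrete continuity, `Farey.lean`); iterated differences of the angles of
`k + α` give words of sign `-1` and tiny angle (`Word.lean`); walking along them from an arbitrary
direction one meets opposite signs (`Path.lean`, `Count.lean`).
-/

/-- **Main theorem.** -/
theorem Pool.Agent.Results.MP_d57abb_nt.Parity.result (g : ℕ → ℤ)
    (hmul : ∀ m n : ℕ, g (m * n) = g m * g n) (hval : ∀ n : ℕ, 0 < n → g n = 1 ∨ g n = -1)
    (σ : ℤ) (k₀ : ℕ) (hσ : g (k₀ ^ 2 + 3 * k₀ + 1) = σ) (ε : ℝ) (hε : 0 < ε) :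
    ∃ N₀ : ℕ, ∀ N ≥ N₀,
      (N : ℝ) ^ (1 - ε) ≤ ((Finset.Icc 1 N).filter (fun k => g (k ^ 2 + 3 * k + 1) = σ)).card := by
  subst hσ
  exact Pool.Agent.Lib.MP_d57abb_nt.both ⟨hmul, hval⟩ hε

namespace Pool.Agent.Lib.MP_d57abb_nt

/-- The Liouville function: `k² + 3 k + 1` has an odd number of prime factors (as a prime has) for
at least `N ^ (1 - ε)` integers `k ≤ N`. -/
theorem liouville_odd (ε : ℝ) (hε : 0 < ε) : ∃ N₀ : ℕ, ∀ N ≥ N₀, (N : ℝ) ^ (1 - ε) ≤
    ((Finset.Icc 1 N).filter
      (fun k => Odd (ArithmeticFunction.cardFactors (k ^ 2 + 3 * k + 1)))).card := by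
  obtain ⟨N₀, h⟩ := Pool.Agent.Results.MP_d57abb_nt.Parity.result
    (fun n => ArithmeticFunction.liouville n) ArithmeticFunction.liouville_apply_mul
    (by
      intro n hn
      rw [ArithmeticFunction.liouville_apply hn.ne']
      exact neg_one_pow_eq_or ℤ _) (-1) 1
    (by
      have h5 : Nat.Prime 5 := by norm_num
      norm_num
      rw [ArithmeticFunction.liouville_apply (by norm_num),
        ArithmeticFunction.cardFactors_apply_prime h5]
      norm_num) ε hε
  refine ⟨N₀, fun N hN => (h N hN).trans ?_⟩
  norm_cast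
  apply Finset.card_le_card
  intro k hk
  rw [Finset.mem_filter] at hk ⊢
  refine ⟨hk.1, ?_⟩
  have h1 := hk.2
  rw [ArithmeticFunction.liouville_apply (by positivity)] at h1
  by_contra hne
  rw [Nat.not_odd_iff_even] at hne
  rw [hne.neg_one_pow] at h1
  exact absurd h1 (by decide)

end Pool.Agent.Lib.MP_d57abb_nt
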