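import Mathlib
import Pool.Agent.Lib.MP_d57abb_nt.Plus
import Pool.Agent.Lib.MP_d57abb_nt.Changes

/-!
# Sign changes of the Liouville function along `k² + 3 k + 1`

If a completely multiplicative function `g` with values `1, -1` takes the value `-1` on the sequence
`k² + 3 k + 1`, then both sign patterns `(1, -1)` and `(-1, 1)` of
`(g (k² + 3 k + 1), g ((k + 1)² + 3 (k + 1) + 1))` occur for at least `N ^ (1/2 - ε)` integers
`k ≤ N`.
-/

/-- **Main theorem.** -/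
theorem Pool.Agent.Results.MP_d57abb_nt.SignChanges.result (g : ℕ → ℤ)
    (hmul : ∀ m n : ℕ, g (m * n) = g m * g n) (hval : ∀ n : ℕ, 0 < n → g n = 1 ∨ g n = -1)
    (k₀ : ℕ) (hk₀ : g (k₀ ^ 2 + 3 * k₀ + 1) = -1) (ε : ℝ) (hε : 0 < ε) :
    ∃ N₀ : ℕ, ∀ N ≥ N₀,
      (N : ℝ) ^ (1 / 2 - ε) ≤ ((Finset.Icc 1 N).filter (fun k =>
        g (k ^ 2 + 3 * k + 1) = 1 ∧ g ((k + 1) ^ 2 + 3 * (k + 1) + 1) = -1)).card ∧
      (N : ℝ) ^ (1 / 2 - ε) ≤ ((Finset.Icc 1 N).filter (fun k =>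
        g (k ^ 2 + 3 * k + 1) = -1 ∧ g ((k + 1) ^ 2 + 3 * (k + 1) + 1) = 1)).card := by
  classical
  set s : ℕ → ℤ := fun k => g (k ^ 2 + 3 * k + 1) with hs_def
  have hs : ∀ k, s k = 1 ∨ s k = -1 := fun k => hval _ (by positivity)
  have hrel : ∀ r, s ((r + 1) ^ 2 + 2 * (r + 1) - 2) = s r * s (r + 1) := by
    intro r
    simp only [hs_def]
    rw [← hmul]
    congr 1
    have h1 : (r + 1) ^ 2 + 2 * (r + 1) - 2 = r ^ 2 + 4 * r + 1 := by
      have : (r + 1) ^ 2 + 2 * (r + 1) = r ^ 2 + 4 * r + 1 + 2 := by ring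
      omega
    rw [h1]
    ring
  -- reduce to `ε ≤ 1 / 2`
  set δ : ℝ := min ε (1 / 2) with hδ_def
  have hδ : 0 < δ := lt_min hε (by norm_num)
  have hδε : δ ≤ ε := min_le_left _ _
  have hδ2 : δ ≤ 1 / 2 := min_le_right _ _
  obtain ⟨N₁, hN₁⟩ := Pool.Agent.Lib.MP_d57abb_nt.both (g := g) ⟨hmul, hval⟩ (k₀ := k₀)
    (ε := δ / 2) (half_pos hδ)
  obtain ⟨N₂, hN₂⟩ : ∃ N₂ : ℕ, ∀ N ≥ N₂, (192 : ℝ) ≤ (N : ℝ) ^ (δ / 2) := by
    have h := (tendsto_rpow_atTop (half_pos hδ)).comp tendsto_natCast_atTop_atTop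
    exact Filter.eventually_atTop.1 ((Filter.tendsto_atTop.1 h) 192)
  refine ⟨max (max (2 * N₁ + 2) N₂) 20, fun N hN => ?_⟩
  have hNa : 2 * N₁ + 2 ≤ N := le_trans (le_trans (le_max_left _ _) (le_max_left _ _)) hN
  have hNb : N₂ ≤ N := le_trans (le_trans (le_max_right _ _) (le_max_left _ _)) hN
  have hNc : 20 ≤ N := le_trans (le_max_right _ _) hN
  set n := N / 2 with hn
  have hn1 : N₁ ≤ n := by omega
  have hn2 : 10 ≤ n := by omega
  have hn3 : 2 * n ≤ N := by omega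
  have hn4 : N ≤ 3 * n := by omega
  set r := Nat.sqrt (n + 2) with hr
  have hr2 : r ^ 2 ≤ n + 2 := Nat.sqrt_le' _
  have hrn : n + 2 * r + 2 ≤ N := by
    have : 2 * r + 2 ≤ n := by
      by_contra hc
      push Not at hc
      have h3 : r ≤ 3 := by nlinarith
      omega
    omega
  have hcount := Pool.Agent.Lib.MP_d57abb_nt.Chg.count_le hs hrel n N hrn
  have hboth := Pool.Agent.Lib.MP_d57abb_nt.Chg.both_kinds hs N
  have hP := hN₁ n hn1
  rw [hk₀] at hP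
  -- the main inequality for a number `X` with `C ≤ 2 X + 2`
  have main : ∀ X : ℕ, ((Finset.range (N + 1)).filter (fun t => s t ≠ s (t + 1))).card ≤
      2 * X + 2 → (N : ℝ) ^ (1 / 2 - ε) ≤ X := by
    intro X hX
    have hNpos : (0 : ℝ) < N := by
      have : (20 : ℝ) ≤ N := by exact_mod_cast hNc
      linarith
    have hN1 : (1 : ℝ) ≤ N := by
      have : (20 : ℝ) ≤ N := by exact_mod_cast hNc
      linarith
    have h1 : ((n : ℝ)) ^ (1 - δ / 2) ≤ (2 * r + 1) * (2 * (2 * X + 2)) := by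
      refine hP.trans ?_
      have h2 : ((Finset.Icc 1 n).filter (fun k => s k = -1)).card ≤
          (2 * r + 1) * (2 * (2 * X + 2)) :=
        hcount.trans (Nat.mul_le_mul_left _ (Nat.mul_le_mul_left _ hX))
      exact_mod_cast h2
    have hrr : (2 * (r : ℝ) + 1) ≤ 2 * (N : ℝ) ^ (1 / 2 : ℝ) := by
      rw [← Real.sqrt_eq_rpow]
      have h3 : ((r : ℝ) + 1 / 2) ^ 2 ≤ N := by
        have h4 : (r : ℝ) ^ 2 ≤ n + 2 := by exact_mod_cast hr2
        have h5 : (n : ℝ) + 2 * r + 2 ≤ N := by exact_mod_cast hrn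
        have h6 : (2 : ℝ) ≤ r := by
          have : 2 ≤ r := by
            rw [hr, Nat.le_sqrt']
            omega
          exact_mod_cast this
        nlinarith
      have h7 := Real.le_sqrt_of_sq_le h3
      linarith
    have hnN : (N : ℝ) ^ (1 - δ / 2) / 3 ≤ (n : ℝ) ^ (1 - δ / 2) := by
      have h8 : (N : ℝ) / 3 ≤ n := by
        have : (N : ℝ) ≤ 3 * n := by exact_mod_cast hn4
        linarith
      have h9 : ((N : ℝ) / 3) ^ (1 - δ / 2) ≤ (n : ℝ) ^ (1 - δ / 2) :=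
        Real.rpow_le_rpow (by positivity) h8 (by linarith)
      refine le_trans ?_ h9
      rw [Real.div_rpow hNpos.le (by norm_num)]
      refine div_le_div_of_nonneg_left (by positivity) (by positivity) ?_
      calc (3 : ℝ) ^ (1 - δ / 2) ≤ (3 : ℝ) ^ (1 : ℝ) :=
            Real.rpow_le_rpow_of_exponent_le (by norm_num) (by linarith)
        _ = 3 := Real.rpow_one 3
    -- combine
    have hhalf : (0 : ℝ) < (N : ℝ) ^ (1 / 2 : ℝ) := Real.rpow_pos_of_pos hNpos _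
    have h10 : (N : ℝ) ^ (1 - δ / 2) ≤ 24 * (N : ℝ) ^ (1 / 2 : ℝ) * ((X : ℝ) + 1) := by
      have hXnn : (0 : ℝ) ≤ 2 * (2 * X + 2) := by positivity
      have := mul_le_mul_of_nonneg_right hrr hXnn
      nlinarith
    have h11 : (N : ℝ) ^ (1 - δ / 2) = (N : ℝ) ^ (1 / 2 : ℝ) * (N : ℝ) ^ (1 / 2 - δ / 2) := by
      rw [← Real.rpow_add hNpos]
      congr 1
      ring
    have h12 : (N : ℝ) ^ (1 / 2 - δ / 2) ≤ 24 * ((X : ℝ) + 1) := by
      rw [h11] at h10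
      have : (N : ℝ) ^ (1 / 2 : ℝ) * (N : ℝ) ^ (1 / 2 - δ / 2) ≤
          (N : ℝ) ^ (1 / 2 : ℝ) * (24 * ((X : ℝ) + 1)) := by linarith
      exact le_of_mul_le_mul_left this hhalf
    have h13 : (N : ℝ) ^ (1 / 2 - δ / 2) = (N : ℝ) ^ (1 / 2 - δ) * (N : ℝ) ^ (δ / 2) := by
      rw [← Real.rpow_add hNpos]
      congr 1
      ring
    have h14 : (1 : ℝ) ≤ (N : ℝ) ^ (1 / 2 - δ) := Real.one_le_rpow hN1 (by linarith)
    have h15 : (N : ℝ) ^ (1 / 2 - δ) * 192 ≤ 24 * ((X : ℝ) + 1) := by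
      refine le_trans ?_ h12
      rw [h13]
      exact mul_le_mul_of_nonneg_left (hN₂ N hNb) (by positivity)
    have h16 : (N : ℝ) ^ (1 / 2 - ε) ≤ (N : ℝ) ^ (1 / 2 - δ) :=
      Real.rpow_le_rpow_of_exponent_le hN1 (by linarith)
    linarith
  exact ⟨main _ hboth.1, main _ hboth.2⟩

namespace Pool.Agent.Lib.MP_d57abb_nt.Chg

/-- The case of the Liouville function `(-1) ^ Ω(n)`. -/
theorem liouville_changes (ε : ℝ) (hε : 0 < ε) : ∃ N₀ : ℕ, ∀ N ≥ N₀,
    (N : ℝ) ^ (1 / 2 - ε) ≤ ((Finset.Icc 1 N).filter (fun k =>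
      ArithmeticFunction.liouville (k ^ 2 + 3 * k + 1) = 1 ∧
        ArithmeticFunction.liouville ((k + 1) ^ 2 + 3 * (k + 1) + 1) = -1)).card ∧
    (N : ℝ) ^ (1 / 2 - ε) ≤ ((Finset.Icc 1 N).filter (fun k =>
      ArithmeticFunction.liouville (k ^ 2 + 3 * k + 1) = -1 ∧
        ArithmeticFunction.liouville ((k + 1) ^ 2 + 3 * (k + 1) + 1) = 1)).card := by
  refine Pool.Agent.Results.MP_d57abb_nt.SignChanges.result
    (fun n => ArithmeticFunction.liouville n) ArithmeticFunction.liouville_apply_mul ?_ 1 ?_ ε hε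
  · intro n hn
    rw [ArithmeticFunction.liouville_apply hn.ne']
    exact neg_one_pow_eq_or ℤ _
  · have h5 : Nat.Prime 5 := by norm_num
    norm_num
    rw [ArithmeticFunction.liouville_apply (by norm_num),
      ArithmeticFunction.cardFactors_apply_prime h5]
    norm_num

end Pool.Agent.Lib.MP_d57abb_nt.Chg
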